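import Pool.Agent.H87.LE.B04b_Nonlin


open MeasureTheory Complex Set Filter Topology
open scoped ContDiff Laplacian

namespace Pool.Agent.H87.LE

/-! # B06a, part 1: the q-energy on H -/

/-- the `q`-energy -/
noncomputable def g6Ph (q : ℝ) (x : HH) : ℝ := ∫ z in DD, |fn x z| ^ q

/-- weighted arithmetic-geometric mean -/
theorem g6_pt {q : ℝ} (h2 : 2 ≤ q) (h4 : q ≤ 4) (a : ℝ) :
    |a| ^ q ≤ (1 - (q - 2) / 2) * a ^ 2 + (q - 2) / 2 * a ^ 4 := by
  rcases eq_or_ne a 0 with rfl | ha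
  · rw [abs_zero, Real.zero_rpow (by linarith)]
    simp
  · have ha' : 0 < |a| := abs_pos.2 ha
    have h := Real.geom_mean_le_arith_mean2_weighted (w₁ := 1 - (q - 2) / 2) (w₂ := (q - 2) / 2)
      (p₁ := a ^ 2) (p₂ := a ^ 4) (by linarith) (by linarith) (by positivity) (by positivity)
      (by ring)
    have e1 : (a ^ 2) ^ (1 - (q - 2) / 2) = |a| ^ (2 * (1 - (q - 2) / 2)) := by
      rw [← sq_abs, ← Real.rpow_natCast, ← Real.rpow_mul ha'.le]
      norm_num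
    have e2 : (a ^ 4) ^ ((q - 2) / 2) = |a| ^ (4 * ((q - 2) / 2)) := by
      rw [show a ^ 4 = |a| ^ 4 by rw [show (4 : ℕ) = 2 * 2 by norm_num, pow_mul, pow_mul, sq_abs],
        ← Real.rpow_natCast, ← Real.rpow_mul ha'.le]
      norm_num
    rw [e1, e2, ← Real.rpow_add ha'] at h
    have e3 : 2 * (1 - (q - 2) / 2) + 4 * ((q - 2) / 2) = q := by ring
    rwa [e3] at h

theorem g6_int4 : ∃ C : ℝ, 0 < C ∧ ∀ x : HH, Integrable (fun z => fn x z ^ 4) b04b_mu ∧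
    ∫ z, fn x z ^ 4 ∂b04b_mu ≤ C * ‖x‖ ^ 4 := by
  obtain ⟨C, hC, h4⟩ := fn_l4
  refine ⟨C, hC, fun x => ?_⟩
  have h1 : Integrable (fun z => fn x z ^ 4) volume := by
    have := (h4 x).1.integrable_norm_pow (p := 4) (by norm_num)
    refine this.congr (Eventually.of_forall fun z => ?_)
    simp only [Real.norm_eq_abs]
    rw [show (4 : ℕ) = 2 * 2 by norm_num, pow_mul, pow_mul, sq_abs]
  exact ⟨h1.restrict, (setIntegral_le_integral h1
    (Eventually.of_forall fun _ => by positivity)).trans (h4 x).2⟩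

theorem g6_intq {q : ℝ} (h2 : 2 ≤ q) (h4 : q ≤ 4) (x : HH) :
    Integrable (fun z => |fn x z| ^ q) b04b_mu := by
  obtain ⟨C, hC, h⟩ := g6_int4
  have h1 : Integrable (fun z => (1 - (q - 2) / 2) * fn x z ^ 2 + (q - 2) / 2 * fn x z ^ 4)
      b04b_mu := ((b04b_sq x).1.const_mul _).add ((h x).1.const_mul _)
  refine h1.mono' ?_ (Eventually.of_forall fun z => ?_)
  · exact ((b04b_meas x).norm.aemeasurable.pow_const q).aestronglyMeasurable
  · rw [Real.norm_eq_abs, abs_of_nonneg (Real.rpow_nonneg (abs_nonneg _) _)]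
    exact g6_pt h2 h4 _

theorem g6_nonneg (q : ℝ) (x : HH) : 0 ≤ g6Ph q x :=
  integral_nonneg fun z => Real.rpow_nonneg (abs_nonneg _) _

theorem g6_bound : ∃ C : ℝ, 0 < C ∧ ∀ q : ℝ, 2 ≤ q → q ≤ 4 → ∀ x : HH, ‖x‖ ≤ 1 →
    g6Ph q x ≤ (∫ z, fn x z ^ 2 ∂b04b_mu) + (q - 2) * C := by
  obtain ⟨C, hC, h⟩ := g6_int4
  refine ⟨C, hC, fun q h2 h4 x hx => ?_⟩
  have h1 : g6Ph q x ≤ ∫ z, ((1 - (q - 2) / 2) * fn x z ^ 2 + (q - 2) / 2 * fn x z ^ 4)
      ∂b04b_mu := by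
    refine integral_mono (g6_intq h2 h4 x) (((b04b_sq x).1.const_mul _).add
      ((h x).1.const_mul _)) (fun z => g6_pt h2 h4 _)
  rw [integral_add ((b04b_sq x).1.const_mul _) ((h x).1.const_mul _), integral_const_mul,
    integral_const_mul] at h1
  have h5 : ∫ z, fn x z ^ 4 ∂b04b_mu ≤ C := by
    refine (h x).2.trans ?_
    have : ‖x‖ ^ 4 ≤ 1 := pow_le_one₀ (norm_nonneg _) hx
    nlinarith
  have h6 : 0 ≤ ∫ z, fn x z ^ 2 ∂b04b_mu := integral_nonneg fun z => sq_nonneg _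
  have h7 : 0 ≤ ∫ z, fn x z ^ 4 ∂b04b_mu := integral_nonneg fun z => by positivity
  nlinarith

theorem g6_ae_smul (c : ℝ) (x : HH) : ∀ᵐ z ∂b04b_mu, fn (c • x) z = c * fn x z := by
  apply ae_restrict_of_ae
  rw [map_smul]
  filter_upwards [Lp.coeFn_smul c (fn x)] with z hz
  rw [hz]; rfl

theorem g6_smul (q : ℝ) (c : ℝ) (x : HH) : g6Ph q (c • x) = |c| ^ q * g6Ph q x := by
  unfold g6Ph
  rw [← integral_const_mul]
  apply integral_congr_ae
  filter_upwards [g6_ae_smul c x] with z hz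
  rw [hz, abs_mul, Real.mul_rpow (abs_nonneg _) (abs_nonneg _)]

/-- pointwise Lipschitz estimate of the power -/
theorem g6_pt_lip : ∃ C : ℝ, 0 < C ∧ ∀ q a b : ℝ, 2 < q → q ≤ 21 / 10 →
    |(|b| ^ q - |a| ^ q)| ≤ C * ((|a| + |b|) + (|a| + |b|) ^ 2) * |b - a| := by
  obtain ⟨C, hC, h⟩ := pow_taylor
  refine ⟨3 + C, by positivity, fun q a b h2 h3 => ?_⟩
  set t : ℝ := |a| + |b| with ht
  have ht0 : 0 ≤ t := by positivity
  have h1 := h q a b h2 h3
  rw [← ht] at h1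
  have hba : |b - a| ≤ t := by
    rw [ht]; calc |b - a| ≤ |b| + |a| := abs_sub _ _
      _ = _ := by ring
  have hq1 : t ^ (q - 1) ≤ t + t ^ 2 := by
    rcases le_total t 1 with h5 | h5
    · have h6 : t ^ (q - 1) ≤ t ^ (1 : ℝ) := by
        rcases eq_or_lt_of_le ht0 with h7 | h7
        · rw [← h7, Real.zero_rpow (by linarith), Real.zero_rpow (by norm_num)]
        · exact Real.rpow_le_rpow_of_exponent_ge h7 h5 (by linarith)
      rw [Real.rpow_one] at h6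
      nlinarith [sq_nonneg t]
    · have h6 : t ^ (q - 1) ≤ t ^ (2 : ℝ) := Real.rpow_le_rpow_of_exponent_le h5 (by linarith)
      rw [Real.rpow_two] at h6
      linarith
  have e1 : t ^ (q - 2) * t = t ^ (q - 1) := by
    rcases eq_or_lt_of_le ht0 with h7 | h7
    · rw [← h7, Real.zero_rpow (by linarith : q - 1 ≠ 0), mul_zero]
    · nth_rewrite 2 [← Real.rpow_one t]
      rw [← Real.rpow_add h7]; congr 1; ring
  have h4 : |(|a| ^ (q - 2) * a)| ≤ t ^ (q - 1) := by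
    rw [abs_mul, abs_of_nonneg (Real.rpow_nonneg (abs_nonneg _) _), ← e1]
    have h5 : |a| ≤ t := by rw [ht]; linarith [abs_nonneg b]
    exact mul_le_mul (Real.rpow_le_rpow (abs_nonneg _) h5 (by linarith)) h5 (abs_nonneg _)
      (Real.rpow_nonneg ht0 _)
  have h5 : |(|b| ^ q - |a| ^ q)| ≤ |q * (|a| ^ (q - 2) * a) * (b - a)| +
      C * t ^ (q - 2) * (b - a) ^ 2 := by
    have h6 : |b| ^ q - |a| ^ q = q * (|a| ^ (q - 2) * a) * (b - a) +
        (|b| ^ q - |a| ^ q - q * (|a| ^ (q - 2) * a) * (b - a)) := by ring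
    rw [h6]
    exact (abs_add_le _ _).trans (add_le_add le_rfl h1)
  have h6 : |q * (|a| ^ (q - 2) * a) * (b - a)| ≤ 3 * t ^ (q - 1) * |b - a| := by
    rw [abs_mul, abs_mul, abs_of_pos (by linarith : 0 < q)]
    refine mul_le_mul_of_nonneg_right ?_ (abs_nonneg _)
    exact mul_le_mul (by linarith) h4 (abs_nonneg _) (by norm_num)
  have h7 : C * t ^ (q - 2) * (b - a) ^ 2 ≤ C * t ^ (q - 1) * |b - a| := by
    rw [← sq_abs (b - a), ← e1]
    have h8 : |b - a| ^ 2 ≤ t * |b - a| := by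
      rw [sq]; exact mul_le_mul_of_nonneg_right hba (abs_nonneg _)
    have h9 : 0 ≤ C * t ^ (q - 2) := mul_nonneg hC.le (Real.rpow_nonneg ht0 _)
    calc C * t ^ (q - 2) * |b - a| ^ 2 ≤ C * t ^ (q - 2) * (t * |b - a|) :=
          mul_le_mul_of_nonneg_left h8 h9
      _ = C * (t ^ (q - 2) * t) * |b - a| := by ring
  have h8 : (3 + C) * t ^ (q - 1) * |b - a| ≤ (3 + C) * (t + t ^ 2) * |b - a| := by
    refine mul_le_mul_of_nonneg_right ?_ (abs_nonneg _)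
    exact mul_le_mul_of_nonneg_left hq1 (by positivity)
  linarith

/-- continuity of the energy with respect to the `L²` norm -/
theorem g6_cont : ∃ K : ℝ, 0 < K ∧ ∀ q : ℝ, 2 < q → q ≤ 21 / 10 → ∀ ε : ℝ, 0 < ε →
    ∀ x y : HH, ‖x‖ ≤ 1 → ‖y‖ ≤ 1 →
      |g6Ph q y - g6Ph q x| ≤ K * ε + K / ε * ‖fn y - fn x‖ ^ 2 := by
  obtain ⟨C, hC, h⟩ := g6_pt_lip
  obtain ⟨C4, hC4, h4⟩ := g6_int4
  refine ⟨C * (2 + 16 * C4) + C, by positivity, fun q h2 h3 ε hε x y hx hy => ?_⟩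
  have hq2 : (2 : ℝ) ≤ q := h2.le
  have hq4 : q ≤ 4 := by linarith
  have hpt : ∀ a b : ℝ, |(|b| ^ q - |a| ^ q)| ≤ C * ε * (2 * (a ^ 2 + b ^ 2) + 8 * (a ^ 4 + b ^ 4))
      + C / (2 * ε) * (b - a) ^ 2 := by
    intro a b
    refine (h q a b h2 h3).trans ?_
    set t : ℝ := |a| + |b| with ht
    have h5 : t ^ 2 ≤ 2 * (a ^ 2 + b ^ 2) := by
      rw [ht, ← sq_abs a, ← sq_abs b]; nlinarith [sq_nonneg (|a| - |b|)]
    have h6 : t ^ 4 ≤ 8 * (a ^ 4 + b ^ 4) := by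
      have e1 : t ^ 4 = (t ^ 2) ^ 2 := by ring
      have e2 : (t ^ 2) ^ 2 ≤ (2 * (a ^ 2 + b ^ 2)) ^ 2 := pow_le_pow_left₀ (sq_nonneg _) h5 2
      nlinarith [sq_nonneg (a ^ 2 - b ^ 2)]
    have h7 : (t + t ^ 2) * |b - a| ≤ ε * (t ^ 2 + t ^ 4) + 1 / (2 * ε) * (b - a) ^ 2 := by
      rw [← sq_abs (b - a)]
      have h8 : (t + t ^ 2) * |b - a| ≤ ε / 2 * (t + t ^ 2) ^ 2 + 1 / (2 * ε) * |b - a| ^ 2 := by
        have h9 : 0 ≤ (ε * (t + t ^ 2) - |b - a|) ^ 2 / (2 * ε) := by positivity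
        have e3 : (ε * (t + t ^ 2) - |b - a|) ^ 2 / (2 * ε) =
            ε / 2 * (t + t ^ 2) ^ 2 + 1 / (2 * ε) * |b - a| ^ 2 - (t + t ^ 2) * |b - a| := by
          field_simp
          ring
        linarith
      have h10 : ε / 2 * (t + t ^ 2) ^ 2 ≤ ε * (t ^ 2 + t ^ 4) := by
        nlinarith [mul_nonneg hε.le (sq_nonneg (t - t ^ 2))]
      linarith
    calc C * (t + t ^ 2) * |b - a| = C * ((t + t ^ 2) * |b - a|) := by ring
      _ ≤ C * (ε * (t ^ 2 + t ^ 4) + 1 / (2 * ε) * (b - a) ^ 2) :=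
          mul_le_mul_of_nonneg_left h7 hC.le
      _ ≤ C * (ε * (2 * (a ^ 2 + b ^ 2) + 8 * (a ^ 4 + b ^ 4)) + 1 / (2 * ε) * (b - a) ^ 2) := by
          refine mul_le_mul_of_nonneg_left ?_ hC.le
          have := mul_le_mul_of_nonneg_left (add_le_add h5 h6) hε.le
          linarith
      _ = _ := by field_simp
  have hd : Integrable (fun z => (fn y z - fn x z) ^ 2) b04b_mu ∧
      ∫ z, (fn y z - fn x z) ^ 2 ∂b04b_mu ≤ ‖fn y - fn x‖ ^ 2 := by
    have h1 : MemLp (fn y - fn x : LR) 2 volume := Lp.memLp _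
    have h2' : Integrable (fun z => (fn y - fn x : LR) z ^ 2) volume :=
      (memLp_two_iff_integrable_sq h1.1).mp h1
    have hae : (fun z => (fn y - fn x : LR) z ^ 2) =ᵐ[volume] fun z => (fn y z - fn x z) ^ 2 := by
      filter_upwards [Lp.coeFn_sub (fn y) (fn x)] with z hz
      rw [hz]; rfl
    have h3' : Integrable (fun z => (fn y z - fn x z) ^ 2) volume := h2'.congr hae
    refine ⟨h3'.restrict, (setIntegral_le_integral h3'
      (Eventually.of_forall fun z => sq_nonneg _)).trans ?_⟩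
    rw [← integral_congr_ae hae, ← real_inner_self_eq_norm_sq, inner_LR]
    refine le_of_eq (integral_congr_ae (Eventually.of_forall fun z => ?_))
    simp only [sq]
  have hx2 := (b04b_sq x).2
  have hy2 := (b04b_sq y).2
  have hx4 := (h4 x).2
  have hy4 := (h4 y).2
  have e1 : ‖x‖ ^ 2 ≤ 1 := pow_le_one₀ (norm_nonneg _) hx
  have e2 : ‖y‖ ^ 2 ≤ 1 := pow_le_one₀ (norm_nonneg _) hy
  have e3 : ‖x‖ ^ 4 ≤ 1 := pow_le_one₀ (norm_nonneg _) hx
  have e4 : ‖y‖ ^ 4 ≤ 1 := pow_le_one₀ (norm_nonneg _) hy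
  have i1 := (b04b_sq x).1
  have i2 := (b04b_sq y).1
  have i3 := (h4 x).1
  have i4 := (h4 y).1
  have hI : Integrable (fun z => C * ε * (2 * (fn x z ^ 2 + fn y z ^ 2) +
      8 * (fn x z ^ 4 + fn y z ^ 4)) + C / (2 * ε) * (fn y z - fn x z) ^ 2) b04b_mu :=
    ((((i1.add i2).const_mul 2).add ((i3.add i4).const_mul 8)).const_mul (C * ε)).add
      (hd.1.const_mul _)
  have hval : ∫ z, (C * ε * (2 * (fn x z ^ 2 + fn y z ^ 2) +
      8 * (fn x z ^ 4 + fn y z ^ 4)) + C / (2 * ε) * (fn y z - fn x z) ^ 2) ∂b04b_mu =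
      C * ε * (2 * ((∫ z, fn x z ^ 2 ∂b04b_mu) + ∫ z, fn y z ^ 2 ∂b04b_mu) +
      8 * ((∫ z, fn x z ^ 4 ∂b04b_mu) + ∫ z, fn y z ^ 4 ∂b04b_mu)) +
      C / (2 * ε) * ∫ z, (fn y z - fn x z) ^ 2 ∂b04b_mu := by
    have j1 : Integrable (fun z => 2 * (fn x z ^ 2 + fn y z ^ 2)) b04b_mu :=
      (i1.add i2).const_mul 2
    have j2 : Integrable (fun z => 8 * (fn x z ^ 4 + fn y z ^ 4)) b04b_mu :=
      (i3.add i4).const_mul 8
    have j3 : Integrable (fun z => C * ε * (2 * (fn x z ^ 2 + fn y z ^ 2) +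
      8 * (fn x z ^ 4 + fn y z ^ 4))) b04b_mu := (j1.add j2).const_mul (C * ε)
    have j4 : Integrable (fun z => C / (2 * ε) * (fn y z - fn x z) ^ 2) b04b_mu :=
      hd.1.const_mul _
    rw [integral_add j3 j4, integral_const_mul, integral_const_mul, integral_add j1 j2,
      integral_const_mul, integral_const_mul, integral_add i1 i2, integral_add i3 i4]
  have hmain : |g6Ph q y - g6Ph q x| ≤ ∫ z, (C * ε * (2 * (fn x z ^ 2 + fn y z ^ 2) +
      8 * (fn x z ^ 4 + fn y z ^ 4)) + C / (2 * ε) * (fn y z - fn x z) ^ 2) ∂b04b_mu := by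
    unfold g6Ph
    rw [← integral_sub (g6_intq hq2 hq4 y) (g6_intq hq2 hq4 x)]
    refine (abs_integral_le_integral_abs).trans ?_
    exact integral_mono ((g6_intq hq2 hq4 y).sub (g6_intq hq2 hq4 x)).abs hI
      (fun z => hpt _ _)
  rw [hval] at hmain
  refine hmain.trans ?_
  have hCε : 0 ≤ C * ε := by positivity
  have f1 : C * ε * (2 * ((∫ z, fn x z ^ 2 ∂b04b_mu) + ∫ z, fn y z ^ 2 ∂b04b_mu) +
      8 * ((∫ z, fn x z ^ 4 ∂b04b_mu) + ∫ z, fn y z ^ 4 ∂b04b_mu)) ≤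
      C * ε * (2 + 16 * C4) := by
    refine mul_le_mul_of_nonneg_left ?_ hCε
    nlinarith
  have f2 : C / (2 * ε) * ∫ z, (fn y z - fn x z) ^ 2 ∂b04b_mu ≤
      C / ε * ‖fn y - fn x‖ ^ 2 := by
    have f3 : C / (2 * ε) ≤ C / ε := by
      apply div_le_div_of_nonneg_left hC.le hε (by linarith)
    have f4 : 0 ≤ ∫ z, (fn y z - fn x z) ^ 2 ∂b04b_mu := integral_nonneg fun z => sq_nonneg _
    exact mul_le_mul f3 hd.2 f4 (by positivity)
  have f5 : C / ε * ‖fn y - fn x‖ ^ 2 ≤ (C * (2 + 16 * C4) + C) / ε * ‖fn y - fn x‖ ^ 2 := by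
    refine mul_le_mul_of_nonneg_right ?_ (sq_nonneg _)
    apply div_le_div_of_nonneg_right _ hε.le
    have : 0 ≤ C * (2 + 16 * C4) := by positivity
    linarith
  have f6 : C * ε * (2 + 16 * C4) ≤ (C * (2 + 16 * C4) + C) * ε := by nlinarith [mul_pos hC hε]
  linarith

end Pool.Agent.H87.LE
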